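import Pool.Agent.H27.TA.Low

/-!
Coassociativity of the Fox derivative and its consequences.
-/

namespace Pool.Agent.H27.TA

open Pool.Agent.H66.TA Pool.Agent.H17.TA FreeAlgebra
open scoped TensorProduct

variable {K : Type*} [Field K]

/-- `D ⊗ id` -/
noncomputable def F3 : A K ⊗[K] A K →ₗ[K] A K ⊗[K] (A K ⊗[K] A K) :=
  (TensorProduct.assoc K (A K) (A K) (A K)).toLinearMap.comp
    (TensorProduct.map (dd 1) LinearMap.id)

/-- `id ⊗ D` -/
noncomputable def G3 : A K ⊗[K] A K →ₗ[K] A K ⊗[K] (A K ⊗[K] A K) :=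
  TensorProduct.map LinearMap.id (dd 1)

theorem F3_tmul (p q : A K) :
    F3 (p ⊗ₜ q) = TensorProduct.assoc K (A K) (A K) (A K) (dd 1 p ⊗ₜ q) := rfl

theorem G3_tmul (p q : A K) : G3 (p ⊗ₜ q) = p ⊗ₜ dd 1 q := rfl

theorem assoc_left (a q : A K) (N : A K ⊗[K] A K) :
    TensorProduct.assoc K (A K) (A K) (A K) (((a ⊗ₜ[K] (1 : A K)) * N) ⊗ₜ q) =
      TensorProduct.map (LinearMap.mulLeft K a) LinearMap.id
        (TensorProduct.assoc K (A K) (A K) (A K) (N ⊗ₜ q)) := by
  induction N using TensorProduct.induction_on with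
  | zero => rw [mul_zero, TensorProduct.zero_tmul, map_zero, map_zero]
  | tmul p p' =>
    rw [Algebra.TensorProduct.tmul_mul_tmul, TensorProduct.assoc_tmul, TensorProduct.assoc_tmul,
      TensorProduct.map_tmul, one_mul]
    rfl
  | add s t hs ht =>
    rw [mul_add, TensorProduct.add_tmul, map_add, hs, ht, TensorProduct.add_tmul, map_add, map_add]

theorem F3_left (i : Fin 3) (M : A K ⊗[K] A K) :
    F3 ((x K i ⊗ₜ[K] (1 : A K)) * M) =
      TensorProduct.map (LinearMap.mulLeft K (x K i)) LinearMap.id (F3 M) +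
        if i = 1 then (1 : A K) ⊗ₜ[K] M else 0 := by
  induction M using TensorProduct.induction_on with
  | zero => simp
  | tmul p q =>
    rw [Algebra.TensorProduct.tmul_mul_tmul, F3_tmul, dd_mul, TensorProduct.add_tmul, map_add,
      one_mul, assoc_left, F3_tmul, dd_x]
    congr 1
    split_ifs
    · rw [one_mul, TensorProduct.assoc_tmul]
    · rw [zero_mul, TensorProduct.zero_tmul, map_zero]
  | add s t hs ht =>
    rw [mul_add, map_add, hs, ht, map_add, map_add]
    split_ifs
    · rw [TensorProduct.tmul_add]; abel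
    · abel

theorem G3_left (a : A K) (M : A K ⊗[K] A K) :
    G3 ((a ⊗ₜ[K] (1 : A K)) * M) =
      TensorProduct.map (LinearMap.mulLeft K a) LinearMap.id (G3 M) := by
  induction M using TensorProduct.induction_on with
  | zero => simp
  | tmul p q =>
    rw [Algebra.TensorProduct.tmul_mul_tmul, G3_tmul, one_mul, G3_tmul, TensorProduct.map_tmul]
    rfl
  | add s t hs ht => rw [mul_add, map_add, hs, ht, map_add, map_add]

/-- Coassociativity. -/
theorem coassoc (P : A K) : F3 (dd 1 P) = G3 (dd 1 P) := by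
  have h : (F3 (K := K)).comp (dd 1) = G3.comp (dd 1) := by
    apply lin_ext
    intro w
    show F3 (K := K) (dd 1 (mon w)) = G3 (dd 1 (mon w))
    induction w using FreeMonoid.inductionOn' with
    | one => rw [mon_one, dd_one, map_zero, map_zero]
    | of_mul i w ih =>
      rw [mon_mul, mon_of, dd_mul, map_add, map_add, F3_left, G3_left, ih, add_assoc]
      congr 1
      rw [dd_x]
      by_cases hi : i = 1
      · rw [if_pos hi, if_pos hi, one_mul, F3_tmul, G3_tmul, dd_one, TensorProduct.zero_tmul,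
          map_zero, add_zero]
      · rw [if_neg hi, if_neg hi, zero_mul, map_zero, map_zero, add_zero]
  exact LinearMap.congr_fun h P

/-- apply the constant coefficient to the last factor -/
noncomputable def E1 : A K ⊗[K] (A K ⊗[K] A K) →ₗ[K] A K ⊗[K] A K :=
  TensorProduct.map LinearMap.id
    ((TensorProduct.rid K (A K)).toLinearMap.comp (TensorProduct.map LinearMap.id (co 1)))

/-- apply the constant coefficient to the second factor -/
noncomputable def R1 : A K ⊗[K] A K →ₗ[K] A K :=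
  (TensorProduct.rid K (A K)).toLinearMap.comp (TensorProduct.map LinearMap.id (co 1))

theorem R1_tmul (p q : A K) : R1 (p ⊗ₜ q) = co 1 q • p := rfl

/-- apply the constant coefficient to the first factor -/
noncomputable def L1 (M : Type*) [AddCommGroup M] [Module K M] : A K ⊗[K] M →ₗ[K] M :=
  (TensorProduct.lid K M).toLinearMap.comp (TensorProduct.map (co 1) LinearMap.id)

theorem L1_tmul (M : Type*) [AddCommGroup M] [Module K M] (p : A K) (m : M) :
    L1 M (p ⊗ₜ m) = co 1 p • m := rfl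

theorem co_one_one : co 1 (1 : A K) = 1 := by
  rw [← mon_one, co_mon, if_pos rfl]

theorem E1_assoc (N : A K ⊗[K] A K) :
    E1 (TensorProduct.assoc K (A K) (A K) (A K) (N ⊗ₜ (1 : A K))) = N := by
  induction N using TensorProduct.induction_on with
  | zero => rw [TensorProduct.zero_tmul, map_zero, map_zero]
  | tmul p q =>
    rw [TensorProduct.assoc_tmul, E1, TensorProduct.map_tmul]
    show p ⊗ₜ[K] (co 1 (1 : A K) • q) = p ⊗ₜ[K] q
    rw [co_one_one, one_smul]
  | add s t hs ht => rw [TensorProduct.add_tmul, map_add, map_add, hs, ht]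

theorem E1_one (M : A K ⊗[K] A K) : E1 ((1 : A K) ⊗ₜ[K] M) = (1 : A K) ⊗ₜ[K] R1 M := rfl

theorem one_tmul_inj {M : Type*} [AddCommGroup M] [Module K M] {m m' : M}
    (h : (1 : A K) ⊗ₜ[K] m = (1 : A K) ⊗ₜ[K] m') : m = m' := by
  have := congrArg (L1 M) h
  rwa [L1_tmul, L1_tmul, co_one_one, one_smul, one_smul] at this

variable (F : RF K)

include F in
theorem R1_mem {v : A K} (hv : v ∈ (B : Subalgebra K (A K))) :
    R1 (dd 1 v) ∈ (B : Subalgebra K (A K)) := by
  obtain ⟨r, s, t, hR⟩ := F.rep 1 v hv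
  rw [hR.eq, map_sum]
  apply B.sum_mem
  intro k _
  rw [R1_tmul]
  exact B.smul_mem (hR.mu k) _

include F in
/-- If `D P = u ⊗ 1 + 1 ⊗ v`, then `u` and `v` are almost polynomials in `x 2`. -/
theorem pure2 {P u v : A K} (hv : v ∈ (B : Subalgebra K (A K)))
    (hu : u ∈ (B : Subalgebra K (A K)))
    (h : dd 1 P = u ⊗ₜ[K] (1 : A K) + (1 : A K) ⊗ₜ[K] v) :
    ∃ z q q' : Polynomial K, u = x K 1 * q2 z + q2 q ∧ v = q2 z * x K 1 + q2 q' := by
  have h1 := coassoc P
  rw [h, map_add, map_add, F3_tmul, F3_tmul, G3_tmul, G3_tmul, dd_one, TensorProduct.zero_tmul,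
    TensorProduct.tmul_zero, map_zero, add_zero, zero_add] at h1
  set Z := R1 (dd 1 v) with hZ
  have h2 : dd 1 u = (1 : A K) ⊗ₜ[K] Z := by
    have := congrArg E1 h1
    rwa [E1_assoc, E1_one] at this
  have hZB : Z ∈ (B : Subalgebra K (A K)) := R1_mem F hv
  have h3 : dd 1 Z = 0 := by
    have := coassoc u
    rw [h2, F3_tmul, G3_tmul, dd_one, TensorProduct.zero_tmul, map_zero,
      ← TensorProduct.tmul_zero (A K ⊗[K] A K) (1 : A K)] at this
    exact (one_tmul_inj this).symm
  have h4 : dd 1 v = Z ⊗ₜ[K] (1 : A K) := by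
    rw [h2, TensorProduct.assoc_tmul] at h1
    exact (one_tmul_inj h1).symm
  obtain ⟨z, hz⟩ := F.z Z hZB h3
  obtain ⟨q, hq⟩ := F.z (u - x K 1 * Z) (B.sub_mem hu (B.mul_mem x1_mem hZB)) (by
    rw [map_sub, dd_mul, h3, mul_zero, zero_add, dd_x, if_pos rfl, one_mul, h2, sub_self])
  obtain ⟨q', hq'⟩ := F.z (v - Z * x K 1) (B.sub_mem hv (B.mul_mem hZB x1_mem)) (by
    rw [map_sub, dd_mul, h3, zero_mul, add_zero, dd_x, if_pos rfl, mul_one, h4, sub_self])
  exact ⟨z, q, q', by rw [← hz, ← hq]; abel, by rw [← hz, ← hq']; abel⟩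

end Pool.Agent.H27.TA
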