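import Pool.Agent.H27.TA.Mid

/-!
The fact `la`.
-/

namespace Pool.Agent.H27.TA

open Pool.Agent.H66.TA Pool.Agent.H17.TA FreeAlgebra Polynomial
open scoped TensorProduct

variable {K : Type*} [Field K]

theorem co_X2_one : co (FreeMonoid.of (2 : Fin 3)) (1 : A K) = 0 := by
  rw [← mon_one, co_mon, if_neg (FreeMonoid.of_ne_one 2).symm]

theorem co_one_x2 : co 1 (x K 2) = 0 := by
  rw [← mon_of, co_mon, if_neg (FreeMonoid.of_ne_one 2)]

theorem co_X2_x2 : co (FreeMonoid.of (2 : Fin 3)) (x K 2) = 1 := by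
  rw [← mon_of, co_mon, if_pos rfl]

theorem dd_C : dd 1 (br (x K 1) (x K 2)) = (1 : A K) ⊗ₜ[K] x K 2 - x K 2 ⊗ₜ[K] (1 : A K) := by
  rw [br, map_sub, dd_mul, dd_mul, dd_x, dd_x, if_pos rfl, if_neg (by decide)]
  simp

/-- The functional `co w₁ ⊗ co w₂ ⊗ co w₃`. -/
noncomputable def co3 (w₁ w₂ w₃ : FreeMonoid (Fin 3)) : A K ⊗[K] (A K ⊗[K] A K) →ₗ[K] K :=
  TensorProduct.lift ((LinearMap.lsmul K K).compl₁₂ (co w₁)
    (TensorProduct.lift ((LinearMap.lsmul K K).compl₁₂ (co w₂) (co w₃))))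

theorem co3_tmul (w₁ w₂ w₃ : FreeMonoid (Fin 3)) (p q r : A K) :
    co3 w₁ w₂ w₃ (p ⊗ₜ (q ⊗ₜ r)) = co w₁ p * (co w₂ q * co w₃ r) := by
  simp [co3]

/-- If `dd 1 P` is a sum of products of polynomials in `x₂` plus multiples of `C ⊗ 1` and
`1 ⊗ C`, the latter vanish. -/
theorem no_C {P : A K} {r : ℕ} (q q' : Fin r → K[X]) (β β' : K)
    (h : dd 1 P = ∑ k, q2 (q k) ⊗ₜ[K] q2 (q' k) + β • (br (x K 1) (x K 2) ⊗ₜ[K] (1 : A K)) +
      β' • ((1 : A K) ⊗ₜ[K] br (x K 1) (x K 2))) : β = 0 ∧ β' = 0 := by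
  have h1 := coassoc P
  rw [h] at h1
  simp only [map_add, map_sum, map_smul, F3_tmul, G3_tmul, dd_q2, dd_C, dd_one] at h1
  simp only [TensorProduct.zero_tmul, TensorProduct.tmul_zero, map_zero, Finset.sum_const_zero,
    zero_add, smul_zero, add_zero, TensorProduct.sub_tmul, TensorProduct.tmul_sub, map_sub,
    TensorProduct.assoc_tmul] at h1
  constructor
  · have h2 := congrArg (co3 (FreeMonoid.of 2) 1 1) h1
    simp only [map_smul, map_sub, co3_tmul, co_X2_one, co_one_one, co_one_x2, co_X2_x2] at h2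
    simpa using h2
  · have h2 := congrArg (co3 1 1 (FreeMonoid.of 2)) h1
    simp only [map_smul, map_sub, co3_tmul, co_X2_one, co_one_one, co_one_x2, co_X2_x2] at h2
    simpa using h2.symm

/-- the elements of the form `[b, S]` -/
def Wb (b : A K) : Submodule K (A K) where
  carrier := {y | ∃ S, y = br b S}
  zero_mem' := ⟨0, by rw [br, mul_zero, zero_mul, sub_zero]⟩
  add_mem' := by
    rintro _ _ ⟨S, rfl⟩ ⟨T, rfl⟩
    exact ⟨S + T, by simp only [br, mul_add, add_mul]; abel⟩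
  smul_mem' := by
    rintro c _ ⟨S, rfl⟩
    exact ⟨c • S, by simp only [br, smul_sub, mul_smul_comm, smul_mul_assoc]⟩

theorem Wb_mul_left {b y : A K} (hy : y ∈ Wb b) : b * y ∈ Wb b := by
  obtain ⟨S, rfl⟩ := hy
  exact ⟨b * S, by simp only [br, mul_sub, mul_assoc]⟩

theorem Wb_mul_right {b y : A K} (hy : y ∈ Wb b) : y * b ∈ Wb b := by
  obtain ⟨S, rfl⟩ := hy
  exact ⟨S * b, by simp only [br, sub_mul, mul_assoc]⟩

theorem aeval_comm (b : A K) (q : K[X]) : aeval b q * b = b * aeval b q := by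
  have h : (q * X) = X * q := mul_comm _ _
  have h2 := congrArg (aeval b) h
  rwa [map_mul, map_mul, aeval_X] at h2

theorem Wb_mul_aeval {b y : A K} (hy : y ∈ Wb b) (q : K[X]) : y * aeval b q ∈ Wb b := by
  obtain ⟨S, rfl⟩ := hy
  exact ⟨S * aeval b q, by rw [br, br, sub_mul, mul_assoc, mul_assoc, mul_assoc, aeval_comm]⟩

theorem Wb_br_pow (a b : A K) (n : ℕ) : br (b ^ n) a ∈ Wb b := by
  induction n with
  | zero => rw [pow_zero, br, one_mul, mul_one, sub_self]; exact (Wb b).zero_mem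
  | succ n ih =>
    have h : br (b ^ (n + 1)) a = b * br (b ^ n) a + br b (a * b ^ n) := by
      simp only [br, mul_sub, pow_succ', mul_assoc]
      rw [← pow_succ', pow_succ]
      abel
    rw [h]
    exact (Wb b).add_mem (Wb_mul_left ih) ⟨_, rfl⟩

theorem Wb_br_aeval (a b : A K) (q : K[X]) : br (aeval b q) a ∈ Wb b := by
  induction q using Polynomial.induction_on' with
  | add p q hp hq => rw [map_add, br_add_left]; exact (Wb b).add_mem hp hq
  | monomial n c =>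
    rw [aeval_monomial, ← Algebra.smul_def, br, smul_mul_assoc, mul_smul_comm, ← smul_sub]
    exact (Wb b).smul_mem c (Wb_br_pow a b n)

theorem split_sum {r : ℕ} (a b : A K) (q q' : Fin r → K[X]) :
    ∃ S, ∑ k, aeval b (q k) * a * aeval b (q' k) =
      a * aeval b (∑ k, q k * q' k) + br b S := by
  have h : ∑ k, br (aeval b (q k)) a * aeval b (q' k) ∈ Wb b :=
    (Wb b).sum_mem fun k _ => Wb_mul_aeval (Wb_br_aeval a b (q k)) (q' k)
  obtain ⟨S, hS⟩ := h
  refine ⟨S, ?_⟩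
  rw [← hS, map_sum, Finset.mul_sum, ← Finset.sum_add_distrib]
  apply Finset.sum_congr rfl
  intro k _
  rw [map_mul, br, sub_mul, mul_assoc a]
  abel

variable (F : RF K) (g : Gp K)

include F in
/-- an element of `B` of degree `< dg a`: no `a` in it. -/
theorem low_C (tc : ∀ a b : A K, br a b ≠ 0 → dg b ≠ 0 → ¬ Com (br a b) b) (P : A K)
    (hP : P ∈ (B : Subalgebra K (A K))) (hc : Com (g (x K 1)) (g (x K 2)))
    (hlt : dg (g (x K 2)) < dg (g (x K 1))) (hnd : ¬ dg (g (x K 2)) ∣ dg (g (x K 1)))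
    (hS : S2 (g (x K 1)) (g (x K 2))) (hd : dg (g P) < dg (g (x K 1))) :
    ∃ (β : K) (q : K[X]), P = q2 q + β • br (x K 1) (x K 2) ∧
      (β ≠ 0 → dg (br (g (x K 1)) (g (x K 2))) ≤ dg (g P)) := by
  have hbr := br_gx_ne g (show (1 : Fin 3) ≠ 2 by decide)
  obtain ⟨α, β, q, rfl⟩ := p2 F g tc P hP hc hlt hnd hS hd.le
  have h1 : g (α • x K 1 + qb β q) = β • br (g (x K 1)) (g (x K 2)) +
      (g (x K 1) * aeval (g (x K 2)) (C α) + aeval (g (x K 2)) q) := by
    rw [qb, map_add, map_add, map_smul, map_smul, map_br, g_q2, aeval_C,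
      Algebra.algebraMap_eq_smul_one, mul_smul_comm, mul_one]
    abel
  obtain ⟨h2, h3⟩ := comm_part (dg_gx g 2) hc hnd (C α) q
  have h5 : dg (g (x K 1) * aeval (g (x K 2)) (C α) + aeval (g (x K 2)) q) ≤
      dg (g (α • x K 1 + qb β q)) ∧
      (β ≠ 0 → dg (br (g (x K 1)) (g (x K 2))) ≤ dg (g (α • x K 1 + qb β q))) := by
    by_cases hβ : β = 0
    · rw [h1, hβ, zero_smul, zero_add]
      exact ⟨le_rfl, fun h => absurd rfl h⟩
    · have h6 : ¬ Com (β • br (g (x K 1)) (g (x K 2))) (g (x K 2)) := by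
        rw [com_smul_iff hβ]
        exact tc _ _ hbr (dg_gx g 2)
      have h7 := mix_sum h6 h2
      rw [← h1] at h7
      refine ⟨h7.2.1, fun _ => ?_⟩
      have h8 := h7.1
      rwa [dg_smul hβ] at h8
  have hα : α = 0 := by
    by_contra hα
    have h8 := (h3 (by rwa [Ne, C_eq_zero])).1
    omega
  refine ⟨β, q, ?_, h5.2⟩
  rw [hα, zero_smul, zero_add, qb]

include F in
theorem la (tc : ∀ a b : A K, br a b ≠ 0 → dg b ≠ 0 → ¬ Com (br a b) b) (P : A K)
    (hP : P ∈ (B : Subalgebra K (A K))) (hc : Com (g (x K 1)) (g (x K 2)))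
    (hlt : dg (g (x K 2)) < dg (g (x K 1))) (hnd : ¬ dg (g (x K 2)) ∣ dg (g (x K 1)))
    (hS : S2 (g (x K 1)) (g (x K 2))) (hcP : Com (g P) (g (x K 2)))
    (hndP : ¬ dg (g (x K 2)) ∣ dg (g P)) (h1 : dg (g (x K 1)) < dg (g P))
    (h2 : dg (g P) < dg (g (x K 1)) + dg (g (x K 2))) :
    dg (g (x K 1)) + dg (br (g (x K 1)) (g (x K 2))) ≤ dg (br (g P) (g (x K 2))) := by
  by_contra hcon
  rw [not_le] at hcon
  have hnt : NT (g (x K 1)) (g (x K 2)) := fun h => hnd h.2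
  obtain ⟨r, u, v, hR⟩ := F.rep g P hP
  have hS' := hS
  obtain ⟨hS1, hS2⟩ := hS'
  have hk : ∀ k, dg (g (u k)) + dg (g (v k)) < dg (g (x K 1)) := by
    intro k
    have := F.nd g P u v hP hR k
    omega
  have hu : ∀ k, ∃ (β : K) (q : K[X]), u k = q2 q + β • br (x K 1) (x K 2) ∧
      (β ≠ 0 → dg (br (g (x K 1)) (g (x K 2))) ≤ dg (g (u k))) := fun k =>
    low_C F g tc (u k) (hR.mu k) hc hlt hnd hS (by have := hk k; omega)
  have hv : ∀ k, ∃ (β : K) (q : K[X]), v k = q2 q + β • br (x K 1) (x K 2) ∧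
      (β ≠ 0 → dg (br (g (x K 1)) (g (x K 2))) ≤ dg (g (v k))) := fun k =>
    low_C F g tc (v k) (hR.mv k) hc hlt hnd hS (by have := hk k; omega)
  have hq2C : ∀ c : K, q2 (C c) = c • (1 : A K) := by
    intro c
    rw [q2, aeval_C, Algebra.algebraMap_eq_smul_one]
  have key : ∀ k, ∃ (q q' : K[X]) (γ γ' : K), u k ⊗ₜ[K] v k = q2 q ⊗ₜ[K] q2 q' +
      γ • (br (x K 1) (x K 2) ⊗ₜ[K] (1 : A K)) + γ' • ((1 : A K) ⊗ₜ[K] br (x K 1) (x K 2)) := by
    intro k
    obtain ⟨β, q, hq, hqd⟩ := hu k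
    obtain ⟨β', q', hq', hqd'⟩ := hv k
    have hk' := hk k
    by_cases hβ : β = 0
    · by_cases hβ' : β' = 0
      · refine ⟨q, q', 0, 0, ?_⟩
        rw [hq, hq', hβ, hβ']
        simp only [zero_smul, add_zero]
      · have h3 := hqd' hβ'
        obtain ⟨c, h4⟩ := const_of_dg g
          (low_sing F g (hR.mu k) hnt hlt.le hS (by omega))
        rw [Algebra.algebraMap_eq_smul_one] at h4
        refine ⟨C c, q', 0, c * β', ?_⟩
        rw [hq', h4, hq2C, zero_smul, add_zero, TensorProduct.tmul_add, TensorProduct.tmul_smul]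
        simp only [← TensorProduct.smul_tmul', smul_smul, mul_comm β' c]
    · have h3 := hqd hβ
      obtain ⟨c, h4⟩ := const_of_dg g
        (low_sing F g (hR.mv k) hnt hlt.le hS (by omega))
      rw [Algebra.algebraMap_eq_smul_one] at h4
      refine ⟨q, C c, c * β, 0, ?_⟩
      rw [hq, h4, hq2C, zero_smul, add_zero, TensorProduct.add_tmul]
      simp only [TensorProduct.tmul_smul, ← TensorProduct.smul_tmul', smul_smul]
  choose q q' γ γ' hqq using key
  have hD : dd 1 P = ∑ k, q2 (q k) ⊗ₜ[K] q2 (q' k) +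
      (∑ k, γ k) • (br (x K 1) (x K 2) ⊗ₜ[K] (1 : A K)) +
      (∑ k, γ' k) • ((1 : A K) ⊗ₜ[K] br (x K 1) (x K 2)) := by
    rw [hR.eq, Finset.sum_smul, Finset.sum_smul, ← Finset.sum_add_distrib,
      ← Finset.sum_add_distrib]
    exact Finset.sum_congr rfl fun k _ => hqq k
  obtain ⟨h3, h4⟩ := no_C q q' _ _ hD
  rw [h3, h4, zero_smul, zero_smul, add_zero, add_zero] at hD
  obtain ⟨q'', hq''⟩ := F.z (P - ∑ k, q2 (q k) * x K 1 * q2 (q' k))
    (B.sub_mem hP (B.sum_mem fun k _ =>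
      B.mul_mem (B.mul_mem (q2_mem _) x1_mem) (q2_mem _))) (by
      rw [map_sub, hD, map_sum, sub_eq_zero]
      apply Finset.sum_congr rfl
      intro k _
      rw [dd_mul, dd_mul, dd_q2, dd_q2, dd_x, if_pos rfl]
      simp only [mul_zero, zero_mul, zero_add, add_zero, Algebra.TensorProduct.tmul_mul_tmul,
        mul_one, one_mul])
  obtain ⟨S, hSS⟩ := split_sum (g (x K 1)) (g (x K 2)) q q'
  set p : K[X] := ∑ k, q k * q' k with hp
  have hgP : g P = br (g (x K 2)) S +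
      (g (x K 1) * aeval (g (x K 2)) p + aeval (g (x K 2)) q'') := by
    have h5 : P = ∑ k, q2 (q k) * x K 1 * q2 (q' k) + q2 q'' := by rw [← hq'']; abel
    rw [h5, map_add, map_sum, g_q2]
    simp only [map_mul, g_q2]
    rw [hSS]
    abel
  obtain ⟨h5, h6⟩ := comm_part (dg_gx g 2) hc hnd p q''
  have h7 : dg (g P) =
      dg (g (x K 1) * aeval (g (x K 2)) p + aeval (g (x K 2)) q'') := by
    by_cases hW : br (g (x K 2)) S = 0
    · rw [hgP, hW, zero_add]
    · have h8 : ¬ Com (br (g (x K 2)) S) (g (x K 2)) := by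
        have h9 : br (g (x K 2)) S = br (-S) (g (x K 2)) := by
          simp only [br, mul_neg, neg_mul]; abel
        rw [h9] at hW ⊢
        exact tc _ _ hW (dg_gx g 2)
      obtain ⟨e1, e2, e3, e4⟩ := mix_sum h8 h5
      rw [← hgP] at e1 e2 e3 e4
      have e5 : dg (br (g (x K 2)) S) <
          dg (g (x K 1) * aeval (g (x K 2)) p + aeval (g (x K 2)) q'') := by
        by_contra e6
        exact e3 (not_lt.mp e6) hcP
      rw [hgP, dg_add_eq_right e5]
  by_cases hp0 : p = 0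
  · rw [hp0, map_zero, mul_zero, zero_add, (dg_aeval (dg_gx g 2) q'').1] at h7
    exact hndP (h7 ▸ Dvd.intro_left _ rfl)
  · obtain ⟨h8, h9⟩ := h6 hp0
    rcases h9 with h9 | h9
    · rw [h9] at h7
      rcases Nat.eq_zero_or_pos p.natDegree with h10 | h10
      · rw [h10, zero_mul] at h7; omega
      · have h11 := Nat.mul_le_mul_right (dg (g (x K 2))) h10
        omega
    · rw [← h7] at h9
      exact hndP h9

end Pool.Agent.H27.TA
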