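import Pool.Agent.H17.TA.Fox

/-!
Elements of low degree in the subalgebra generated by two components of an automorphism, from the
degree formulas for good representations of the Fox derivative.
-/

namespace Pool.Agent.H27.TA

open Pool.Agent.H66.TA Pool.Agent.H17.TA FreeAlgebra
open scoped TensorProduct

variable {K : Type*} [Field K]

/-- The facts about good representations which are used. -/
structure RF (K : Type*) [Field K] : Prop where
  rep : ∀ (g : Gp K) (P : A K), P ∈ (B : Subalgebra K (A K)) →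
    ∃ (r : ℕ) (u v : Fin r → A K), Rep g 1 P u v
  nd : ∀ (g : Gp K) (P : A K) {r : ℕ} (u v : Fin r → A K), P ∈ (B : Subalgebra K (A K)) →
    Rep g 1 P u v → ∀ k, dg (g (u k)) + dg (g (v k)) + dg (br (g (x K 1)) (g (x K 2))) ≤
      dg (br (g P) (g (x K 2)))
  f1 : ∀ (g : Gp K) (P : A K) {r : ℕ} (u v : Fin r → A K), P ∈ (B : Subalgebra K (A K)) →
    Rep g 1 P u v → (∀ k, dg (g (u k)) + dg (g (v k)) + dg (g (x K 1)) < dg (g P)) →
      dg (g (x K 2)) ∣ dg (g P)
  z : ∀ P : A K, P ∈ (B : Subalgebra K (A K)) → dd 1 P = 0 → ∃ q : Polynomial K, P = q2 q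

variable (F : RF K) (g : Gp K)

theorem const_of_dg {P : A K} (h : dg (g P) = 0) : ∃ c : K, P = algebraMap K (A K) c :=
  dg_eq_zero.mp (g_ne_const g h)

theorem g_q2 (q : Polynomial K) : g (q2 q) = Polynomial.aeval (g (x K 2)) q := by
  rw [q2, ← AlgEquiv.coe_toAlgHom, ← Polynomial.aeval_algHom_apply]

theorem dd_q2 (q : Polynomial K) : dd 1 (q2 q) = 0 := by
  induction q using Polynomial.induction_on' with
  | add p q hp hq => rw [q2_add, map_add, hp, hq, add_zero]
  | monomial n c =>
    rw [q2, Polynomial.aeval_monomial, dd_mul, dd_algebraMap, zero_mul, add_zero]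
    have : dd 1 (x K 2 ^ n) = 0 := by
      induction n with
      | zero => rw [pow_zero, dd_one]
      | succ n ih => rw [pow_succ, dd_mul, ih, zero_mul, add_zero, dd_x, if_neg (by decide),
          mul_zero]
    rw [this, mul_zero]

include F in
theorem all_const {P : A K} (hP : P ∈ (B : Subalgebra K (A K))) {r : ℕ} {u v : Fin r → A K}
    (hR : Rep g 1 P u v) (h : ∀ k, dg (g (u k)) + dg (g (v k)) = 0) :
    ∃ (α : K) (q : Polynomial K), P = α • x K 1 + q2 q := by
  have h1 : ∀ k, ∃ c : K, u k = algebraMap K (A K) c := fun k =>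
    const_of_dg g (by have := h k; omega)
  have h2 : ∀ k, ∃ c : K, v k = algebraMap K (A K) c := fun k =>
    const_of_dg g (by have := h k; omega)
  choose c hc using h1
  choose d hd using h2
  obtain ⟨q, hq⟩ := F.z (P - (∑ k, c k * d k) • x K 1)
    (B.sub_mem hP (B.smul_mem x1_mem _)) (by
      rw [map_sub, map_smul, dd_x, if_pos rfl, hR.eq, Finset.sum_smul, sub_eq_zero]
      apply Finset.sum_congr rfl
      intro k _
      rw [hc, hd, Algebra.algebraMap_eq_smul_one, Algebra.algebraMap_eq_smul_one,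
        ← TensorProduct.smul_tmul', TensorProduct.tmul_smul, smul_smul,
        Algebra.TensorProduct.one_def])
  exact ⟨_, q, by rw [← hq]; abel⟩

include F in
/-- `N0` -/
theorem n0 {P : A K} (hP : P ∈ (B : Subalgebra K (A K)))
    (h : dg (br (g P) (g (x K 2))) ≤ dg (br (g (x K 1)) (g (x K 2)))) :
    ∃ (α : K) (q : Polynomial K), P = α • x K 1 + q2 q := by
  obtain ⟨r, u, v, hR⟩ := F.rep g P hP
  exact all_const F g hP hR (fun k => by have := F.nd g P u v hP hR k; omega)

/-- degree of `α a + q(b)` for small degree -/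
theorem const_of_lt {P : A K} (hnt : NT (g (x K 1)) (g (x K 2)))
    (hle : dg (g (x K 2)) ≤ dg (g (x K 1)))
    (hd : dg (g P) < dg (g (x K 2))) (h : ∃ (α : K) (q : Polynomial K), P = α • x K 1 + q2 q) :
    dg (g P) = 0 := by
  obtain ⟨α, q, rfl⟩ := h
  have e : g (α • x K 1 + q2 q) = α • g (x K 1) + Polynomial.aeval (g (x K 2)) q := by
    rw [map_add, map_smul, g_q2]
  rw [e] at hd ⊢
  obtain ⟨h1, h2, -, -⟩ := hnt.sum (dg_gx g 2) α q
  have hα : α = 0 := by
    by_contra hα
    rw [dg_smul hα] at h1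
    omega
  subst hα
  rw [zero_smul, zero_add] at hd ⊢
  rw [(dg_aeval (dg_gx g 2) q).1] at hd ⊢
  have : q.natDegree = 0 := by
    by_contra hn
    have := Nat.mul_le_mul_right (dg (g (x K 2))) (Nat.one_le_iff_ne_zero.mpr hn)
    omega
  rw [this, zero_mul]

include F in
/-- elements of degree smaller than that of `b` are constants, regular case -/
theorem low_reg {P : A K} (hP : P ∈ (B : Subalgebra K (A K)))
    (hc : ¬ Com (g (x K 1)) (g (x K 2))) (hle : dg (g (x K 2)) ≤ dg (g (x K 1)))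
    (hd : dg (g P) < dg (g (x K 2))) : dg (g P) = 0 := by
  obtain ⟨r, u, v, hR⟩ := F.rep g P hP
  apply const_of_lt g (fun h => hc h.1) hle hd
  apply all_const F g hP hR
  intro k
  have h1 := F.nd g P u v hP hR k
  have h2 := dg_br_le (g P) (g (x K 2))
  have h3 := (dg_br hc).1
  omega

include F in
theorem p1 (P : A K) (hP : P ∈ (B : Subalgebra K (A K))) (hc : ¬ Com (g (x K 1)) (g (x K 2)))
    (hle : dg (g (x K 2)) ≤ dg (g (x K 1))) (hd : dg (g P) < dg (g (x K 1)) + dg (g (x K 2))) :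
    ∃ (α : K) (q : Polynomial K), P = α • x K 1 + q2 q := by
  obtain ⟨r, u, v, hR⟩ := F.rep g P hP
  apply all_const F g hP hR
  intro k
  have h1 := F.nd g P u v hP hR k
  have h2 := dg_br_le (g P) (g (x K 2))
  have h3 := (dg_br hc).1
  have h4 := low_reg F g (hR.mu k) hc hle (by omega)
  have h5 := low_reg F g (hR.mv k) hc hle (by omega)
  omega

include F in
/-- `F1` -/
theorem f1 (P : A K) (hP : P ∈ (B : Subalgebra K (A K))) (hb : ¬ dg (g (x K 2)) ∣ dg (g P)) :
    dg (g P) + dg (br (g (x K 1)) (g (x K 2))) ≤ dg (g (x K 1)) + dg (br (g P) (g (x K 2))) := by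
  obtain ⟨r, u, v, hR⟩ := F.rep g P hP
  by_contra hlt
  rw [not_le] at hlt
  apply hb
  apply F.f1 g P u v hP hR
  intro k
  have h1 := F.nd g P u v hP hR k
  omega

theorem dg_br_lt {u b : A K} (hb : dg b ≠ 0) (h : Com u b) : dg (br u b) < dg u + dg b := by
  by_cases hu : u = 0
  · subst hu
    rw [br, zero_mul, mul_zero, sub_zero, dg_zero]
    omega
  have hb0 : b ≠ 0 := fun h => hb (by rw [h, dg_zero])
  apply lt_of_le_of_ne (dg_br_le u b)
  intro he
  have hne : br u b ≠ 0 := by
    intro h0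
    rw [h0, dg_zero] at he
    omega
  apply lf_ne_zero hne
  rw [lf_eq_hc, he, br, map_sub]
  have h1 : hc (dg u + dg b) (u * b) = lf u * lf b := by
    rw [← dg_mul hu hb0, ← lf_eq_hc, lf_mul]
  have h2 : hc (dg u + dg b) (b * u) = lf b * lf u := by
    rw [add_comm, ← dg_mul hb0 hu, ← lf_eq_hc, lf_mul]
  rw [h1, h2, h.eq, sub_self]

include F in
theorem p1b (c0 : ∀ u v : A K, dg v ≠ 0 → Com u v → dg v ∣ dg u →
      ∃ c : K, lf u = c • lf v ^ (dg u / dg v)) (P : A K) (hP : P ∈ (B : Subalgebra K (A K)))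
    (hc : ¬ Com (g (x K 1)) (g (x K 2))) (hcP : Com (g P) (g (x K 2))) :
    ∃ (c : K) (s : ℕ), lf (g P) = c • lf (g (x K 2)) ^ s := by
  have hdvd : dg (g (x K 2)) ∣ dg (g P) := by
    by_contra hb
    have h1 := f1 F g P hP hb
    have h2 := dg_br_lt (dg_gx g 2) hcP
    have h3 := (dg_br hc).1
    omega
  obtain ⟨c, hc⟩ := c0 _ _ (dg_gx g 2) hcP hdvd
  exact ⟨c, _, hc⟩

include F in
/-- elements of degree smaller than that of `b` are constants, singular case -/
theorem low_sing {P : A K} (hP : P ∈ (B : Subalgebra K (A K)))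
    (hnt : NT (g (x K 1)) (g (x K 2))) (hle : dg (g (x K 2)) ≤ dg (g (x K 1)))
    (hS : S2 (g (x K 1)) (g (x K 2))) (hd : dg (g P) < dg (g (x K 2))) : dg (g P) = 0 := by
  induction hn : dg (g P) using Nat.strong_induction_on generalizing P with
  | _ n ih =>
    subst hn
    obtain ⟨r, u, v, hR⟩ := F.rep g P hP
    apply const_of_lt g hnt hle hd
    apply all_const F g hP hR
    intro k
    have h1 := F.nd g P u v hP hR k
    have h2 := dg_br_le (g P) (g (x K 2))
    have h3 := hS.1
    have h4 := ih _ (by omega) (hR.mu k) (by omega) rfl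
    have h5 := ih _ (by omega) (hR.mv k) (by omega) rfl
    omega

include F in
theorem p2' (P : A K) (hP : P ∈ (B : Subalgebra K (A K)))
    (hlt : dg (g (x K 2)) < dg (g (x K 1))) (hnd : ¬ dg (g (x K 2)) ∣ dg (g (x K 1)))
    (hS : S2 (g (x K 1)) (g (x K 2)))
    (hd : dg (g P) < dg (br (g (x K 1)) (g (x K 2)))) :
    ∃ (α : K) (q : Polynomial K), P = α • x K 1 + q2 q := by
  obtain ⟨r, u, v, hR⟩ := F.rep g P hP
  apply all_const F g hP hR
  intro k
  have h1 := F.nd g P u v hP hR k
  have h2 := dg_br_le (g P) (g (x K 2))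
  have hnt : NT (g (x K 1)) (g (x K 2)) := fun h => hnd h.2
  have h4 := low_sing F g (hR.mu k) hnt hlt.le hS (by omega)
  have h5 := low_sing F g (hR.mv k) hnt hlt.le hS (by omega)
  omega

end Pool.Agent.H27.TA
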