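import Pool.Agent.H27.TA.Coas

/-!
The facts `p2` and `la`.
-/

namespace Pool.Agent.H27.TA

open Pool.Agent.H66.TA Pool.Agent.H17.TA FreeAlgebra Polynomial
open scoped TensorProduct

variable {K : Type*} [Field K]

theorem dg_sum_le {ι : Type*} (s : Finset ι) (f : ι → A K) (n : ℕ) (h : ∀ i ∈ s, dg (f i) ≤ n) :
    dg (∑ i ∈ s, f i) ≤ n := (Fil n).sum_mem h

/-- The degree and the leading form of `a z(b) + q(b)`. -/
theorem comm_part {a b : A K} (hb : dg b ≠ 0) (hab : Com a b) (hnd : ¬ dg b ∣ dg a)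
    (z q : K[X]) :
    Com (a * aeval b z + aeval b q) b ∧
      (z ≠ 0 → dg a + z.natDegree * dg b ≤ dg (a * aeval b z + aeval b q) ∧
        (dg (a * aeval b z + aeval b q) = dg a + z.natDegree * dg b ∨
          dg b ∣ dg (a * aeval b z + aeval b q))) := by
  have hb0 : b ≠ 0 := fun h => hb (by rw [h, dg_zero])
  by_cases hz : z = 0
  · subst hz
    rw [map_zero, mul_zero, zero_add]
    exact ⟨com_aeval hb q, fun h => absurd rfl h⟩
  have ha0 : a ≠ 0 := by
    rintro rfl
    rw [dg_zero] at hnd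
    exact hnd (dvd_zero _)
  have hz0 : aeval b z ≠ 0 := by
    intro h
    have h1 := (dg_aeval hb z).2 hz
    rw [h, lf_eq_zero.mpr rfl] at h1
    have h2 : z.leadingCoeff • lf b ^ z.natDegree ≠ 0 :=
      smul_ne_zero (leadingCoeff_ne_zero.mpr hz) (pow_ne_zero _ (lf_ne_zero hb0))
    exact h2 h1.symm
  have h1 : dg (a * aeval b z) = dg a + z.natDegree * dg b := by
    rw [dg_mul ha0 hz0, (dg_aeval hb z).1]
  have h2 : dg (aeval b q) = q.natDegree * dg b := (dg_aeval hb q).1
  have hc1 : Com (a * aeval b z) b := by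
    rw [Com, lf_mul]
    exact Commute.mul_left hab (com_aeval hb z)
  have hc2 : Com (aeval b q) b := com_aeval hb q
  rcases lt_trichotomy (dg (a * aeval b z)) (dg (aeval b q)) with h3 | h3 | h3
  · refine ⟨?_, fun _ => ?_⟩
    · rw [Com, lf_add_right h3]; exact hc2
    · rw [dg_add_eq_right h3]
      refine ⟨by rw [← h1]; exact h3.le, Or.inr ?_⟩
      rw [h2]
      exact Dvd.intro_left _ rfl
  · exfalso
    apply hnd
    rw [h1, h2] at h3
    have h4 : dg b ∣ dg a + z.natDegree * dg b := by rw [h3]; exact Dvd.intro_left _ rfl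
    exact (Nat.dvd_add_left (Dvd.intro_left _ rfl)).mp h4
  · refine ⟨?_, fun _ => ?_⟩
    · rw [Com, lf_add_left h3]; exact hc1
    · rw [dg_add_eq_left h3, h1]
      exact ⟨le_rfl, Or.inl rfl⟩

variable (F : RF K) (g : Gp K)

include F in
theorem p2 (tc : ∀ a b : A K, br a b ≠ 0 → dg b ≠ 0 → ¬ Com (br a b) b) (P : A K)
    (hP : P ∈ (B : Subalgebra K (A K))) (hc : Com (g (x K 1)) (g (x K 2)))
    (hlt : dg (g (x K 2)) < dg (g (x K 1))) (hnd : ¬ dg (g (x K 2)) ∣ dg (g (x K 1)))
    (hS : S2 (g (x K 1)) (g (x K 2))) (hd : dg (g P) ≤ dg (g (x K 1))) :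
    ∃ (α β : K) (q : K[X]), P = α • x K 1 + qb β q := by
  have hnt : NT (g (x K 1)) (g (x K 2)) := fun h => hnd h.2
  have hbr := br_gx_ne g (show (1 : Fin 3) ≠ 2 by decide)
  obtain ⟨r, u, v, hR⟩ := F.rep g P hP
  obtain ⟨hS1, hS2⟩ := hS
  have hk : ∀ k, dg (g (u k)) + dg (g (v k)) + dg (br (g (x K 1)) (g (x K 2))) ≤ dg (g (x K 1)) + dg (g (x K 2)) := by
    intro k
    have h1 := F.nd g P u v hP hR k
    have h2 := dg_br_le (g P) (g (x K 2))
    omega
  have h0 : ∀ k, dg (g (u k)) = 0 ∨ dg (g (v k)) = 0 := by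
    intro k
    have h1 := hk k
    rcases Nat.lt_or_ge (dg (g (u k))) (dg (g (x K 2))) with h2 | h2
    · exact Or.inl (low_sing F g (hR.mu k) hnt hlt.le ⟨hS1, hS2⟩ h2)
    · exact Or.inr (low_sing F g (hR.mv k) hnt hlt.le ⟨hS1, hS2⟩ (by omega))
  set U : A K := ∑ k, if dg (g (v k)) = 0 then co 1 (v k) • u k else 0 with hU
  set V : A K := ∑ k, if dg (g (v k)) = 0 then 0 else co 1 (u k) • v k with hV
  have hUB : U ∈ (B : Subalgebra K (A K)) := by
    apply B.sum_mem
    intro k _
    split_ifs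
    · exact B.smul_mem (hR.mu k) _
    · exact B.zero_mem
  have hVB : V ∈ (B : Subalgebra K (A K)) := by
    apply B.sum_mem
    intro k _
    split_ifs
    · exact B.zero_mem
    · exact B.smul_mem (hR.mv k) _
  have hconst : ∀ w : A K, dg (g w) = 0 → w = co 1 w • (1 : A K) := by
    intro w hw
    obtain ⟨c, rfl⟩ := const_of_dg g hw
    rw [Algebra.algebraMap_eq_smul_one, map_smul, co_one_one, smul_eq_mul, mul_one]
  have hDP : dd 1 P = U ⊗ₜ[K] (1 : A K) + (1 : A K) ⊗ₜ[K] V := by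
    rw [hR.eq, hU, hV, TensorProduct.sum_tmul, TensorProduct.tmul_sum, ← Finset.sum_add_distrib]
    apply Finset.sum_congr rfl
    intro k _
    by_cases hv : dg (g (v k)) = 0
    · rw [if_pos hv, if_pos hv, TensorProduct.tmul_zero, add_zero]
      conv_lhs => rw [hconst _ hv]
      rw [TensorProduct.tmul_smul, TensorProduct.smul_tmul']
    · rw [if_neg hv, if_neg hv, TensorProduct.zero_tmul, zero_add]
      conv_lhs => rw [hconst _ ((h0 k).resolve_right hv)]
      rw [TensorProduct.tmul_smul, TensorProduct.smul_tmul']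
  have hdU : dg (g U) ≤ dg (g (x K 1)) + dg (g (x K 2)) - dg (br (g (x K 1)) (g (x K 2))) := by
    rw [hU, map_sum]
    apply dg_sum_le
    intro k _
    split_ifs
    · rw [map_smul]
      refine (dg_smul_le _ _).trans ?_
      have := hk k
      omega
    · rw [map_zero, dg_zero]; exact Nat.zero_le _
  have hdV : dg (g V) ≤ dg (g (x K 1)) + dg (g (x K 2)) - dg (br (g (x K 1)) (g (x K 2))) := by
    rw [hV, map_sum]
    apply dg_sum_le
    intro k _
    split_ifs
    · rw [map_zero, dg_zero]; exact Nat.zero_le _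
    · rw [map_smul]
      refine (dg_smul_le _ _).trans ?_
      have := hk k
      omega
  obtain ⟨z, q, q', hUz, hVz⟩ := pure2 F hVB hUB hDP
  have hz : z = 0 := by
    by_contra hz
    have h1 : g U = g (x K 1) * aeval (g (x K 2)) z + aeval (g (x K 2)) q := by
      rw [hUz, map_add, map_mul, g_q2, g_q2]
    have h2 := ((comm_part (dg_gx g 2) hc hnd z q).2 hz).1
    rw [← h1] at h2
    omega
  subst hz
  rw [q2, map_zero, mul_zero, zero_add] at hUz
  rw [q2, map_zero, zero_mul, zero_add] at hVz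
  -- degrees of `q`, `q'`
  have hqd : ∀ p : K[X], dg (aeval (g (x K 2)) p) ≤ dg (g (x K 1)) + dg (g (x K 2)) - dg (br (g (x K 1)) (g (x K 2))) → p.natDegree ≤ 1 := by
    intro p hp
    rw [(dg_aeval (dg_gx g 2) p).1] at hp
    by_contra hn
    have h1 := Nat.mul_le_mul_right (dg (g (x K 2))) (show 2 ≤ p.natDegree by omega)
    have h2 := dg_gx g 2
    omega
  have hq1 : q.natDegree ≤ 1 := hqd q (by rw [← g_q2, ← hUz]; exact hdU)
  have hq1' : q'.natDegree ≤ 1 := hqd q' (by rw [← g_q2, ← hVz]; exact hdV)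
  obtain ⟨q'', hq''⟩ := F.z (P - q2 q * x K 1 - x K 1 * q2 q')
    (B.sub_mem (B.sub_mem hP (B.mul_mem (q2_mem q) x1_mem)) (B.mul_mem x1_mem (q2_mem q'))) (by
      rw [map_sub, map_sub, dd_mul, dd_mul, dd_q2, dd_q2, zero_mul, mul_zero, dd_x, if_pos rfl,
        mul_one, one_mul, add_zero, zero_add, hDP, hUz, hVz]
      abel)
  have hlin : ∀ p : K[X], p.natDegree ≤ 1 → q2 p = p.coeff 0 • (1 : A K) + p.coeff 1 • x K 2 := by
    intro p hp
    conv_lhs => rw [eq_X_add_C_of_natDegree_le_one hp]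
    rw [q2_add, q2, q2, map_mul, aeval_C, aeval_X, aeval_C, Algebra.algebraMap_eq_smul_one,
      Algebra.algebraMap_eq_smul_one, smul_mul_assoc, one_mul]
    abel
  set s := q.coeff 1 + q'.coeff 1 with hs
  set s0 := q.coeff 0 + q'.coeff 0 with hs0
  have hPe : P = s0 • x K 1 + s • (x K 1 * x K 2) + (-(q.coeff 1)) • br (x K 1) (x K 2) +
      q2 q'' := by
    have h1 : P = q2 q * x K 1 + x K 1 * q2 q' + q2 q'' := by rw [← hq'']; abel
    rw [h1, hlin q hq1, hlin q' hq1', hs, hs0, br]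
    simp only [add_mul, mul_add, smul_mul_assoc, mul_smul_comm, one_mul, mul_one, add_smul,
      smul_sub, neg_smul]
    abel
  have hs' : s = 0 := by
    by_contra hs'
    have hz' : (C s0 + C s * X : K[X]) ≠ 0 := by
      intro h
      have := congrArg (fun p => coeff p 1) h
      simp at this
      exact hs' this
    have hzn : (C s0 + C s * X : K[X]).natDegree = 1 := by
      rw [add_comm]
      exact natDegree_linear hs'
    have h1 : g P = (g (x K 1) * aeval (g (x K 2)) (C s0 + C s * X) + aeval (g (x K 2)) q'') +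
        (-(q.coeff 1)) • br (g (x K 1)) (g (x K 2)) := by
      rw [hPe, map_add, map_add, map_add, map_smul, map_smul, map_smul, map_mul, map_br, g_q2,
        map_add, map_mul, aeval_C, aeval_C, aeval_X, mul_add, Algebra.algebraMap_eq_smul_one,
        Algebra.algebraMap_eq_smul_one, mul_smul_comm, mul_one, smul_mul_assoc, one_mul,
        mul_smul_comm]
      abel
    obtain ⟨h2, h3⟩ := comm_part (dg_gx g 2) hc hnd (C s0 + C s * X) q''
    obtain ⟨h4, -⟩ := h3 hz'
    rw [hzn, one_mul] at h4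
    have h5 : dg (g (x K 1) * aeval (g (x K 2)) (C s0 + C s * X) + aeval (g (x K 2)) q'') ≤ dg (g P) := by
      by_cases hq0 : q.coeff 1 = 0
      · rw [h1, hq0, neg_zero, zero_smul, add_zero]
      · have h6 : ¬ Com ((-(q.coeff 1)) • br (g (x K 1)) (g (x K 2))) (g (x K 2)) := by
          rw [com_smul_iff (neg_ne_zero.mpr hq0)]
          exact tc _ _ hbr (dg_gx g 2)
        have h7 := (mix_sum h6 h2).2.1
        exact h7.trans (le_of_eq (by rw [h1, add_comm]))
    have h8 := dg_gx g 2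
    omega
  refine ⟨s0, -(q.coeff 1), q'', ?_⟩
  rw [hPe, hs', zero_smul, add_zero, qb]
  abel

end Pool.Agent.H27.TA
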