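import Pool.Agent.H27.TA.High
import Pool.Agent.H66.TA.Euclid
import Pool.Agent.H17.TA.ND
import Pool.Agent.H17.TA.PFx

/-!
The structure `PG` from the facts about good representations.
-/

namespace Pool.Agent.H27.TA

open Pool.Agent.H66.TA Pool.Agent.H17.TA

theorem mkPG {K : Type*} [Field K] (F : RF K)
    (c0 : ∀ u v : A K, dg v ≠ 0 → Com u v → dg v ∣ dg u →
      ∃ c : K, lf u = c • lf v ^ (dg u / dg v))
    (ct : ∀ u v w : A K, dg v ≠ 0 → Com u v → Com v w → Com u w)
    (tc : ∀ a b : A K, br a b ≠ 0 → dg b ≠ 0 → ¬ Com (br a b) b) : PG K where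
  c0 := c0
  ct := ct
  tc := tc
  p1 g P hP hc hle hd := p1 F g P hP hc hle hd
  p1b g P hP hc hcP := p1b F g c0 P hP hc hcP
  p2 g P hP hc hlt hnd hS hd := p2 F g tc P hP hc hlt hnd hS hd
  p2' g P hP _ hlt hnd hS hd := p2' F g P hP hlt hnd hS hd
  f1 g P hP _ hnd := f1 F g P hP hnd
  n0 g _ hP hd := n0 F g hP hd
  la g P hP hc hlt hnd hS hcP hndP h1 h2 := la F g tc P hP hc hlt hnd hS hcP hndP h1 h2

/-- Everything from the existence of good representations and the inequality `F1`. -/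
theorem mkPG' {K : Type*} [Field K] [CharZero K]
    (rep : ∀ (g : Gp K) (P : A K), P ∈ (B : Subalgebra K (A K)) →
      ∃ (r : ℕ) (u v : Fin r → A K), Rep g 1 P u v)
    (f1 : ∀ (g : Gp K) (P : A K) {r : ℕ} (u v : Fin r → A K), P ∈ (B : Subalgebra K (A K)) →
      Rep g 1 P u v → (∀ k, dg (g (u k)) + dg (g (v k)) + dg (g (x K 1)) < dg (g P)) →
        dg (g (x K 2)) ∣ dg (g P)) : PG K :=
  mkPG
    { rep := rep
      nd := fun g _ _ _ _ hP hR k => nd g hP (br_gx_ne g (by decide)) hR k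
      f1 := f1
      z := fun _ hP h => dd_kernel hP h }
    pf_c0 pf_ct pf_tc

end Pool.Agent.H27.TA
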