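import Pool.Agent.H27.TA.MkPG
import Pool.Agent.H17.TA.Final

/-!
The facts about pairs of components of automorphisms.
-/

namespace Pool.Agent.H27.TA

open Pool.Agent.H66.TA Pool.Agent.H17.TA

theorem pg {K : Type*} [Field K] [CharZero K] : PG K :=
  mkPG' (fun g _ hP => exists_rep g 1 hP) (fun g _ _ _ _ hP hR hlt => f1star g hP hR hlt)

end Pool.Agent.H27.TA
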